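import Pool.Agent.Helper41.LD.Defs

/-!
# Project LD, block AE: almost every `θ > 1` satisfies the arithmetic condition with exponent one
-/

set_option autoImplicit false

namespace Pool.Agent.Helper56.LDX

open Set MeasureTheory Filter Topology
open Pool.Agent.Helper41.LD

/-- one interval -/
theorem vol_one {M d q : ℕ} (hd : 1 ≤ d) (hq : 1 ≤ q) (p : ℤ) {δ : ℝ} :
    volume {θ : ℝ | 1 < θ ∧ θ < M ∧ |q * θ ^ d - p| < δ} ≤ ENNReal.ofReal (2 * δ / q) := by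
  refine (Real.volume_le_diam _).trans ?_
  refine Metric.ediam_le fun x hx y hy => ?_
  have hq0 : (0 : ℝ) < q := by exact_mod_cast hq
  have key : ∀ a b : ℝ, 1 < a → a ≤ b → |q * a ^ d - p| < δ → |q * b ^ d - p| < δ → b - a ≤ 2 * δ / q := by
    intro a b ha hab h1 h2
    rw [le_div_iff₀ hq0]
    have h3 : b - a ≤ b ^ d - a ^ d := by
      obtain ⟨e, rfl⟩ : ∃ e, d = e + 1 := ⟨d - 1, by omega⟩
      have h4 : 1 ≤ a ^ e := one_le_pow₀ ha.le
      have h5 : a ^ e ≤ b ^ e := pow_le_pow_left₀ (by linarith) hab e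
      rw [pow_succ, pow_succ]
      nlinarith [mul_nonneg (sub_nonneg.mpr h5) (show 0 ≤ b by linarith)]
    have h6 := abs_lt.mp h1
    have h7 := abs_lt.mp h2
    nlinarith
  rw [edist_dist, Real.dist_eq]
  refine ENNReal.ofReal_le_ofReal ?_
  rcases le_total x y with h | h
  · rw [abs_sub_comm, abs_of_nonneg (by linarith)]
    exact key x y hx.1 h hx.2.2 hy.2.2
  · rw [abs_of_nonneg (by linarith)]
    exact key y x hy.1 h hy.2.2 hx.2.2

theorem vol_all {M d q : ℕ} (hM : 1 ≤ M) (hd : 1 ≤ d) (hq : 1 ≤ q) {δ : ℝ} (hδ : 0 < δ) (hδ1 : δ ≤ 1) :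
    volume {θ : ℝ | 1 < θ ∧ θ < M ∧ ∃ p : ℤ, |q * θ ^ d - p| < δ} ≤ ENNReal.ofReal (10 * (M : ℝ) ^ d * δ) := by
  have hq0 : (0 : ℝ) < q := by exact_mod_cast hq
  have hM0 : (1 : ℝ) ≤ M := by exact_mod_cast hM
  set N : ℕ := q * M ^ d + 1 with hN
  have hsub : {θ : ℝ | 1 < θ ∧ θ < M ∧ ∃ p : ℤ, |q * θ ^ d - p| < δ} ⊆
      ⋃ p ∈ Finset.Icc (-(N : ℤ)) N, {θ : ℝ | 1 < θ ∧ θ < M ∧ |q * θ ^ d - p| < δ} := by
    rintro θ ⟨h1, h2, p, hp⟩
    refine mem_biUnion (x := p) ?_ ⟨h1, h2, hp⟩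
    have h3 : θ ^ d ≤ (M : ℝ) ^ d := pow_le_pow_left₀ (by linarith) h2.le d
    have h4 : 0 ≤ θ ^ d := by positivity
    have h5 := abs_lt.mp hp
    have h6 : (q : ℝ) * θ ^ d ≤ q * (M : ℝ) ^ d := mul_le_mul_of_nonneg_left h3 hq0.le
    have h7 : 0 ≤ (q : ℝ) * θ ^ d := by positivity
    have h8 : (N : ℝ) = q * (M : ℝ) ^ d + 1 := by rw [hN]; push_cast; ring
    rw [Finset.mem_coe, Finset.mem_Icc]
    constructor
    · have : (-(N : ℤ) : ℝ) ≤ p := by push_cast; linarith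
      exact_mod_cast this
    · have : (p : ℝ) ≤ (N : ℤ) := by push_cast; linarith
      exact_mod_cast this
  refine (measure_mono hsub).trans ((measure_biUnion_finset_le _ _).trans ?_)
  refine (Finset.sum_le_sum fun p _ => vol_one hd hq p).trans ?_
  rw [Finset.sum_const, nsmul_eq_mul, Int.card_Icc]
  have h1 : (((N : ℤ) + 1 - -(N : ℤ)).toNat : ENNReal) = ENNReal.ofReal (2 * N + 1) := by
    have : ((N : ℤ) + 1 - -(N : ℤ)).toNat = 2 * N + 1 := by omega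
    rw [this, ← ENNReal.ofReal_natCast]
    congr 1
    push_cast
    ring
  rw [h1, ← ENNReal.ofReal_mul (by positivity)]
  refine ENNReal.ofReal_le_ofReal ?_
  have h8 : (N : ℝ) = q * (M : ℝ) ^ d + 1 := by rw [hN]; push_cast; ring
  rw [h8, mul_div_assoc', div_le_iff₀ hq0]
  have h9 : (1 : ℝ) ≤ (M : ℝ) ^ d := one_le_pow₀ hM0
  have h10 : (1 : ℝ) ≤ q := by exact_mod_cast hq
  have h11 : (1 : ℝ) ≤ q * (M : ℝ) ^ d := by nlinarith
  nlinarith

/-- the condition with the constant `η` -/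
theorem dioph_of {M : ℕ} (hM : 1 ≤ M) {θ η : ℝ} (hη : 0 < η) (hη1 : η ≤ 1)
    (h : ∀ d q : ℕ, ¬ ∃ p : ℤ, |((q + 1 : ℕ) : ℝ) * θ ^ (d + 1) - p| < η * ((2 * M : ℝ)⁻¹ ^ (d + 1) * (1 / ((q : ℝ) + 1) ^ 2))) : Dioph θ 1 := by
  have hM0 : (1 : ℝ) ≤ M := by exact_mod_cast hM
  have hl : 0 ≤ Real.log (2 * M) := Real.log_nonneg (by linarith)
  have hle : 0 ≤ -Real.log η := by
    have := Real.log_nonpos hη.le hη1
    linarith
  refine ⟨Real.log (2 * M) + 2 + -Real.log η, by linarith, fun d q hd hq p => ?_⟩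
  obtain ⟨e, rfl⟩ : ∃ e, d = e + 1 := ⟨d - 1, by omega⟩
  obtain ⟨r, rfl⟩ : ∃ r, q = r + 1 := ⟨q - 1, by omega⟩
  have h1 := h e r
  push Not at h1
  refine le_trans ?_ (h1 p)
  have hr : (0 : ℝ) < (r : ℝ) + 1 := by positivity
  have hlr : 0 ≤ Real.log ((r : ℝ) + 1) := Real.log_nonneg (by linarith [Nat.cast_nonneg (α := ℝ) r])
  have h2 : η * ((2 * M : ℝ)⁻¹ ^ (e + 1) * (1 / ((r : ℝ) + 1) ^ 2)) =
      Real.exp (Real.log η + (-((e + 1 : ℝ) * Real.log (2 * M)) + -(2 * Real.log ((r : ℝ) + 1)))) := by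
    rw [Real.exp_add, Real.exp_log hη, Real.exp_add]
    congr 2
    · rw [Real.exp_neg, inv_pow]
      congr 1
      rw [show (e + 1 : ℝ) = ((e + 1 : ℕ) : ℝ) by push_cast; ring, ← Real.log_pow, Real.exp_log (by positivity)]
    · rw [Real.exp_neg, one_div]
      congr 1
      rw [show (2 : ℝ) = ((2 : ℕ) : ℝ) by norm_num, ← Real.log_pow, Real.exp_log (by positivity)]
  rw [h2, pow_one]
  refine Real.exp_le_exp.mpr ?_
  push_cast
  have he : (0 : ℝ) ≤ e := Nat.cast_nonneg e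
  nlinarith [mul_nonneg he hl, mul_nonneg he hle, mul_nonneg hlr hl, mul_nonneg hlr hle]

theorem vol_bad {M : ℕ} (hM : 1 ≤ M) : volume {θ : ℝ | 1 < θ ∧ θ < M ∧ ¬ Dioph θ 1} = 0 := by
  have hM0 : (1 : ℝ) ≤ M := by exact_mod_cast hM
  set f : ℕ × ℕ → ℝ := fun z => (1 / 2 : ℝ) ^ (z.1 + 1) * (1 / ((z.2 : ℝ) + 1) ^ 2) with hf
  have hf0 : ∀ z, 0 ≤ f z := fun z => by rw [hf]; positivity
  have hfs : Summable f := by
    have h1 : Summable fun d : ℕ => (1 / 2 : ℝ) ^ (d + 1) := by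
      simp_rw [pow_succ]
      exact (summable_geometric_of_lt_one (by norm_num) (by norm_num)).mul_right _
    have h2 : Summable fun q : ℕ => (1 / ((q : ℝ) + 1) ^ 2) := by
      have := (summable_nat_add_iff 1).mpr (Real.summable_one_div_nat_pow.mpr (show 1 < 2 by norm_num))
      simpa using this
    exact h1.mul_of_nonneg h2 (fun d => by positivity) (fun q => by positivity)
  have key : ∀ η : ℝ, 0 < η → η ≤ 1 → volume {θ : ℝ | 1 < θ ∧ θ < M ∧ ¬ Dioph θ 1} ≤ ENNReal.ofReal (η * (10 * ∑' z, f z)) := by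
    intro η hη hη1
    have hsub : {θ : ℝ | 1 < θ ∧ θ < M ∧ ¬ Dioph θ 1} ⊆ ⋃ z : ℕ × ℕ, {θ : ℝ | 1 < θ ∧ θ < M ∧
        ∃ p : ℤ, |((z.2 + 1 : ℕ) : ℝ) * θ ^ (z.1 + 1) - p| < η * ((2 * M : ℝ)⁻¹ ^ (z.1 + 1) * (1 / ((z.2 : ℝ) + 1) ^ 2))} := by
      rintro θ ⟨h1, h2, h3⟩
      by_contra h4
      refine h3 (dioph_of hM hη hη1 fun d q h5 => h4 ?_)
      exact mem_iUnion.mpr ⟨(d, q), h1, h2, h5⟩
    refine (measure_mono hsub).trans ((measure_iUnion_le _).trans ?_)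
    have h1 : ENNReal.ofReal (η * (10 * ∑' z, f z)) = ∑' z, ENNReal.ofReal (η * (10 * f z)) := by
      rw [← tsum_mul_left, ← tsum_mul_left]
      refine ENNReal.ofReal_tsum_of_nonneg (fun z => by have := hf0 z; positivity) ?_
      exact (hfs.mul_left 10).mul_left η
    rw [h1]
    refine ENNReal.tsum_le_tsum fun z => ?_
    have hq2 : (1 : ℝ) ≤ ((z.2 : ℝ) + 1) ^ 2 := one_le_pow₀ (by linarith [Nat.cast_nonneg (α := ℝ) z.2])
    have h2M : (2 * M : ℝ)⁻¹ ^ (z.1 + 1) ≤ 1 := pow_le_one₀ (by positivity) (inv_le_one_of_one_le₀ (by linarith))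
    have h3 : (1 / ((z.2 : ℝ) + 1) ^ 2) ≤ 1 := by
      rw [div_le_one (by positivity)]
      exact hq2
    refine (vol_all hM (Nat.succ_le_succ (Nat.zero_le _)) (Nat.succ_le_succ (Nat.zero_le _)) (by positivity) ?_).trans ?_
    · calc η * ((2 * M : ℝ)⁻¹ ^ (z.1 + 1) * (1 / ((z.2 : ℝ) + 1) ^ 2)) ≤ 1 * (1 * 1) := by gcongr
        _ = 1 := by norm_num
    · refine ENNReal.ofReal_le_ofReal (le_of_eq ?_)
      rw [hf]
      have hMne : (M : ℝ) ≠ 0 := by linarith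
      simp only [inv_pow, mul_pow, one_div]
      have h5 : (M : ℝ) ^ (z.1 + 1) ≠ 0 := pow_ne_zero _ hMne
      have h6 : ((z.2 : ℝ) + 1) ^ 2 ≠ 0 := by positivity
      field_simp
  refine nonpos_iff_eq_zero.mp ?_
  have hT : Tendsto (fun η : ℝ => ENNReal.ofReal (η * (10 * ∑' z, f z))) (𝓝[>] 0) (𝓝 0) := by
    have h1 : Tendsto (fun η : ℝ => η * (10 * ∑' z, f z)) (𝓝[>] 0) (𝓝 (0 * (10 * ∑' z, f z))) :=
      (tendsto_id.mono_left nhdsWithin_le_nhds).mul_const _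
    have h2 := ENNReal.tendsto_ofReal h1
    rwa [zero_mul, ENNReal.ofReal_zero] at h2
  refine ge_of_tendsto hT ?_
  filter_upwards [Ioc_mem_nhdsGT (show (0 : ℝ) < 1 by norm_num)] with η hη
  exact key η hη.1 hη.2

theorem dioph_ae : ∀ᵐ θ : ℝ, 1 < θ → Dioph θ 1 := by
  rw [ae_iff]
  refine measure_mono_null (t := ⋃ M : ℕ, {θ : ℝ | 1 < θ ∧ θ < ((M + 1 : ℕ) : ℝ) ∧ ¬ Dioph θ 1}) ?_ ?_
  · intro θ hθ
    rw [mem_ofPred_eq, Classical.not_imp] at hθ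
    obtain ⟨n, hn⟩ := exists_nat_gt θ
    refine mem_iUnion.mpr ⟨n, hθ.1, ?_, hθ.2⟩
    push_cast
    linarith
  · exact measure_iUnion_null fun M => vol_bad (Nat.succ_le_succ (Nat.zero_le _))

end Pool.Agent.Helper56.LDX
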